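import Pool.Agent.Lib.MP_c0e0de_co.AF.Defs

/-!
# TASK AF A10: characters of a finite commutative group

`X := G →* ℂˣ` is the dual group (a `CommGroup`, finite, with `Nat.card G` elements:
`CommGroup.monoidHom_mulEquiv_of_hasEnoughRootsOfUnity`, `MonoidHom` into `ℂˣ`).

`ann K = {L | L = 1 on K}` for a subgroup `K`.

PROOF of `card_ann`: characters trivial on `K` correspond to characters of `G ⧸ K`
(`QuotientGroup.lift`, composition with `QuotientGroup.mk'`), which has `|G|/|K|` elements.

PROOF of `sum_char`: for a character `L` and a subgroup `K` the sum of `L g` over `g ∈ K` is `|K|`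
if `L` is trivial on `K`, else `0` (choose `g0 ∈ K` with `L g0 ≠ 1` and substitute `g ↦ g0 g`).
-/

namespace Pool.Agent.AF

open scoped Classical in
theorem sum_char {G : Type} [CommGroup G] [Finite G] (L : G →* ℂˣ) (K : Subgroup G) :
    (∑ᶠ g : K, ((L (g : G) : ℂˣ) : ℂ)) = if (∀ g ∈ K, L g = 1) then (Nat.card K : ℂ) else 0 := by
  let _ : Fintype K := Fintype.ofFinite K
  rw [finsum_eq_sum_of_fintype]
  split_ifs with h
  · have h1 : ∀ g : K, ((L (g : G) : ℂˣ) : ℂ) = 1 := fun g => by
      rw [h g g.2]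
      rfl
    rw [Finset.sum_congr rfl fun g _ => h1 g, Finset.sum_const, Finset.card_univ, nsmul_eq_mul, mul_one,
      Nat.card_eq_fintype_card]
  · push Not at h
    obtain ⟨g0, hg0, hL⟩ := h
    have h1 : ∑ g : K, ((L (g : G) : ℂˣ) : ℂ) =
        ((L g0 : ℂˣ) : ℂ) * ∑ g : K, ((L (g : G) : ℂˣ) : ℂ) := by
      rw [Finset.mul_sum]
      rw [← Equiv.sum_comp (Equiv.mulLeft (⟨g0, hg0⟩ : K)) (fun g : K => ((L (g : G) : ℂˣ) : ℂ))]
      refine Finset.sum_congr rfl fun g _ => ?_
      rw [Equiv.coe_mulLeft, Subgroup.coe_mul, map_mul, Units.val_mul]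
    have h2 : (1 - ((L g0 : ℂˣ) : ℂ)) * ∑ g : K, ((L (g : G) : ℂˣ) : ℂ) = 0 := by
      rw [sub_mul, one_mul, ← h1, sub_self]
    rcases mul_eq_zero.1 h2 with h3 | h3
    · exfalso
      apply hL
      apply Units.ext
      rw [Units.val_one]
      exact (sub_eq_zero.1 h3).symm
    · exact h3

/-- characters trivial on `K` -/
def ann {G : Type} [CommGroup G] (K : Subgroup G) : Subgroup (G →* ℂˣ) where
  carrier := {L | ∀ g ∈ K, L g = 1}
  mul_mem' := by
    intro a b ha hb g hg
    simp [MonoidHom.mul_apply, ha g hg, hb g hg]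
  one_mem' := by intro g _; rfl
  inv_mem' := by
    intro a ha g hg
    simp [MonoidHom.inv_apply, ha g hg]

theorem finite_dual {G : Type} [CommGroup G] [Finite G] : Finite (G →* ℂˣ) :=
  Finite.of_equiv G (CommGroup.monoidHom_mulEquiv_of_hasEnoughRootsOfUnity G ℂ).some.symm.toEquiv

theorem card_dual {G : Type} [CommGroup G] [Finite G] : Nat.card (G →* ℂˣ) = Nat.card G :=
  CommGroup.card_monoidHom_of_hasEnoughRootsOfUnity G ℂ

theorem card_ann {G : Type} [CommGroup G] [Finite G] (K : Subgroup G) :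
    Nat.card (ann K) * Nat.card K = Nat.card G := by
  have h1 : ann K = (MonoidHom.domRestrictHom K ℂˣ).ker := by
    ext L
    rw [MonoidHom.mem_ker]
    constructor
    · intro h
      ext g
      have h2 : L (g : G) = 1 := h g g.2
      change ((L (g : G) : ℂˣ) : ℂ) = ((1 : ℂˣ) : ℂ)
      rw [h2]
    · intro h g hg
      exact congrArg (fun M : K →* ℂˣ => M ⟨g, hg⟩) h
  rw [h1, CommGroup.card_domRestrictHom_ker, Subgroup.card_eq_card_quotient_mul_card_subgroup K]

end Pool.Agent.AF
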