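import Pool.Agent.Lib.MP_c0e0de_co.AF.A2
import Pool.Agent.Lib.MP_c0e0de_co.AF.A10

/-!
# TASK AF A11: block and class stabilisers of an abelian regular group; every non-trivial character
lives on exactly one orbit of blocks

`G` is a finite commutative group of automorphisms, free and transitive on points.
`bstab c = {g | g • c = c}`, `cstab c = {g | par c (g • c)}` (a subgroup by `par_map`).

`card_G`: `|G| = Nat.card P = μ m m` (orbit map of a point; `P` is not empty).

PROOF of `card_cstab` and `cstab_trans`.  For `g ≠ 1` there is no fixed point, for `g = 1` all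
`v = |G|` points are fixed.  Sum of `Par.fix` over all `g ∈ G`:
`m |G| + ∑_c |cstab c| = m ∑_c |bstab c| + m |G|` (exchange the sums: `∑_g #{c | g • c = c} =
∑_c |bstab c|`, `∑_g #{c | par c (g • c)} = ∑_c |cstab c|`, `∑_g #{p | g • p = p} = |G|`).
So `∑_c |cstab c| = ∑_c m |bstab c|`.  Also `|cstab c| = |orbit of c under cstab c| * |bstab c|
≤ m |bstab c|`, because the orbit is contained in `{d | par c d}` (`m` elements).  Hence equality
for every `c`, and the orbit is the whole class.

PROOF of `exists_block` and `unique_orbit`.  Let `L ≠ 1` be a character.  Multiply `Par.fix` for `g`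
by `L g` and sum over `g` (complex numbers; `∑_g L g = 0`): with `[.]` = 0 or 1 (`sum_char`)
`m |G| + ∑_c |cstab c| [L = 1 on cstab c] = m ∑_c |bstab c| [L = 1 on bstab c]`,
and `m |bstab c| = |cstab c|`, `bstab c ≤ cstab c`; so, with
`T = {c | L = 1 on bstab c, L ≠ 1 on cstab c}`: `∑_{c ∈ T} |cstab c| = m |G|`.  In particular
`T ≠ ∅`.  `T` is invariant under `G` (`G` is commutative: `bstab (g • c) = bstab c`,
`cstab (g • c) = cstab c`), and the orbit `O` of `c ∈ T` has `|G| / |bstab c|` elements, all with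
the same `cstab`; so it contributes `|O| |cstab c| = m |G|`.  All terms are positive, so `T = O`.
-/

namespace Pool.Agent.AF

/-- stabiliser of a block -/
def bstab (G : Type) {Bl : Type} [Group G] [MulAction G Bl] (c : Bl) : Subgroup G :=
  MulAction.stabilizer G c

variable {P Bl : Type} [Finite P] [Finite Bl] {I : P → Bl → Prop} {par : Bl → Bl → Prop}
  {k lam μ m r : ℕ}

/-- `par` is invariant -/
theorem Par.par_smul (h : Par I par k lam μ m r) {G : Type} [Group G] [MulAction G P]
    [MulAction G Bl] (ha : ∀ (g : G) (p : P) (c : Bl), I (g • p) (g • c) ↔ I p c)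
    (g : G) (c d : Bl) : par (g • c) (g • d) ↔ par c d :=
  h.par_map (MulAction.toPerm g) (MulAction.toPerm g) (fun p c => ha g p c) c d

/-- stabiliser of the parallel class of a block -/
def Par.cstab (h : Par I par k lam μ m r) {G : Type} [Group G] [MulAction G P]
    [MulAction G Bl] (ha : ∀ (g : G) (p : P) (c : Bl), I (g • p) (g • c) ↔ I p c) (c : Bl) :
    Subgroup G where
  carrier := {g | par c (g • c)}
  mul_mem' := by
    intro a b hA hB
    have h1 : par (a • c) (a • (b • c)) := (h.par_smul ha a c (b • c)).2 hB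
    have h2 := h.aff.equiv.trans hA h1
    simpa [mul_smul] using h2
  one_mem' := by
    simpa using h.aff.equiv.refl c
  inv_mem' := by
    intro a hA
    have h1 : par (a⁻¹ • c) (a⁻¹ • (a • c)) := (h.par_smul ha a⁻¹ c (a • c)).2 hA
    rw [inv_smul_smul] at h1
    exact h.aff.equiv.symm h1

theorem Par.mem_cstab (h : Par I par k lam μ m r) {G : Type} [Group G] [MulAction G P]
    [MulAction G Bl] (ha : ∀ (g : G) (p : P) (c : Bl), I (g • p) (g • c) ↔ I p c) (c : Bl)
    (g : G) : g ∈ h.cstab ha c ↔ par c (g • c) := Iff.rfl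

section
variable {G : Type} [CommGroup G] [Finite G] [MulAction G P] [MulAction G Bl]

theorem Par.card_G (h : Par I par k lam μ m r)
    (hfree : ∀ (g : G) (p : P), g • p = p → g = 1) (htr : ∀ p q : P, ∃ g : G, g • p = q) :
    Nat.card G = μ * m * m := by
  have hpos : 0 < Nat.card P := by
    rw [h.hv]
    have h1 := h.aff.mu_pos
    have h2 := h.m2
    positivity
  obtain ⟨⟨p⟩, -⟩ := Nat.card_pos_iff.1 hpos
  rw [← h.hv]
  refine Nat.card_congr (Equiv.ofBijective (fun g : G => g • p) ⟨fun a b hab => ?_, fun q => ?_⟩)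
  · have h1 : (b⁻¹ * a) • p = p := by
      have h2 : a • p = b • p := hab
      rw [mul_smul, h2, inv_smul_smul]
    have h3 := hfree _ _ h1
    exact (inv_mul_eq_one.1 h3).symm
  · obtain ⟨g, hg⟩ := htr p q
    exact ⟨g, hg⟩

private theorem bstab_le (h : Par I par k lam μ m r)
    (ha : ∀ (g : G) (p : P) (c : Bl), I (g • p) (g • c) ↔ I p c) (c : Bl) :
    bstab G c ≤ h.cstab ha c := by
  intro g hg
  have h1 : g • c = c := hg
  rw [h.mem_cstab ha, h1]
  exact h.aff.equiv.refl c

private theorem orbit_card (h : Par I par k lam μ m r)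
    (ha : ∀ (g : G) (p : P) (c : Bl), I (g • p) (g • c) ↔ I p c) (c : Bl) :
    Nat.card (h.cstab ha c) =
      Nat.card (bstab G c) * (MulAction.orbit (h.cstab ha c) c).ncard := by
  have h1 : MulAction.stabilizer (h.cstab ha c) c = (bstab G c).subgroupOf (h.cstab ha c) := by
    ext g
    rw [MulAction.mem_stabilizer_iff, Subgroup.mem_subgroupOf]
    rfl
  have h2 := MulAction.index_stabilizer (h.cstab ha c) c
  have h3 := Subgroup.card_mul_index (MulAction.stabilizer (h.cstab ha c) c)
  rw [h2, h1, Nat.card_congr (Subgroup.subgroupOfEquivOfLe (bstab_le h ha c)).toEquiv] at h3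
  exact h3.symm

private theorem orbit_sub (h : Par I par k lam μ m r)
    (ha : ∀ (g : G) (p : P) (c : Bl), I (g • p) (g • c) ↔ I p c) (c : Bl) :
    MulAction.orbit (h.cstab ha c) c ⊆ {d | par c d} := by
  rintro _ ⟨⟨g, hg⟩, rfl⟩
  exact hg

private theorem card_le (h : Par I par k lam μ m r)
    (ha : ∀ (g : G) (p : P) (c : Bl), I (g • p) (g • c) ↔ I p c) (c : Bl) :
    Nat.card (h.cstab ha c) ≤ m * Nat.card (bstab G c) := by
  rw [orbit_card h ha c, mul_comm m]
  refine Nat.mul_le_mul_left _ ?_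
  exact (Set.ncard_le_ncard (orbit_sub h ha c) (Set.toFinite _)).trans (le_of_eq (h.cls c))

open scoped Classical in
private theorem ncard_sum {X : Type} [Fintype X] (q : X → Prop) :
    (({x | q x}.ncard : ℕ) : ℂ) = ∑ x, if q x then (1 : ℂ) else 0 := by
  rw [Set.ncard_eq_toFinset_card', ← Finset.sum_filter, Finset.sum_const, nsmul_one]
  congr 2
  ext x
  simp

open scoped Classical in
private theorem sumK [Fintype G] (K : Subgroup G) (f : G → ℂ) :
    (∑ᶠ g : K, f (g : G)) = ∑ g : G, if g ∈ K then f g else 0 := by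
  rw [finsum_eq_sum_of_fintype, ← Finset.sum_filter]
  exact (Finset.sum_subtype (Finset.univ.filter (· ∈ K)) (by simp) f).symm

open scoped Classical in
/-- The fix formula, multiplied by `f g` and summed over `g`. -/
private theorem master [Fintype G] [Fintype Bl] (h : Par I par k lam μ m r)
    (ha : ∀ (g : G) (p : P) (c : Bl), I (g • p) (g • c) ↔ I p c)
    (hfree : ∀ (g : G) (p : P), g • p = p → g = 1) (htr : ∀ p q : P, ∃ g : G, g • p = q)
    (f : G → ℂ) :
    (m : ℂ) * (Nat.card G : ℂ) * f 1 + ∑ c : Bl, ∑ g : G, (if g ∈ h.cstab ha c then f g else 0) =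
      m * ∑ c : Bl, ∑ g : G, (if g ∈ bstab G c then f g else 0) + m * ∑ g : G, f g := by
  have hfix : ∀ g : G, (m : ℂ) * ({p : P | g • p = p}.ncard : ℂ) +
      ∑ c : Bl, (if par c (g • c) then (1 : ℂ) else 0) =
      m * (∑ c : Bl, if g • c = c then (1 : ℂ) else 0) + m := by
    intro g
    have h1 := h.fix (MulAction.toPerm g) (MulAction.toPerm g) (fun p c => ha g p c)
    have h2 : ((m * {p : P | (MulAction.toPerm g : Equiv.Perm P) p = p}.ncard +
      {c : Bl | par c ((MulAction.toPerm g : Equiv.Perm Bl) c)}.ncard : ℕ) : ℂ) =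
      ((m * {c : Bl | (MulAction.toPerm g : Equiv.Perm Bl) c = c}.ncard + m : ℕ) : ℂ) := by
      rw [h1]
    push_cast at h2
    rw [ncard_sum (fun c : Bl => par c ((MulAction.toPerm g : Equiv.Perm Bl) c)),
      ncard_sum (fun c : Bl => (MulAction.toPerm g : Equiv.Perm Bl) c = c)] at h2
    exact h2
  have hF : ∀ g : G, ({p : P | g • p = p}.ncard : ℂ) = if g = 1 then (Nat.card G : ℂ) else 0 := by
    intro g
    split_ifs with hg
    · have h1 : {p : P | g • p = p} = Set.univ := by
        ext p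
        simp [hg]
      rw [h1, Set.ncard_univ, h.hv, h.card_G hfree htr]
    · have h1 : {p : P | g • p = p} = ∅ := by
        ext p
        exact ⟨fun h2 => hg (hfree g p h2), fun h2 => h2.elim⟩
      rw [h1, Set.ncard_empty, Nat.cast_zero]
  have key : ∑ g : G, f g * ((m : ℂ) * ({p : P | g • p = p}.ncard : ℂ) +
      ∑ c : Bl, (if par c (g • c) then (1 : ℂ) else 0)) =
      ∑ g : G, f g * (m * (∑ c : Bl, if g • c = c then (1 : ℂ) else 0) + m) :=
    Finset.sum_congr rfl fun g _ => by rw [hfix g]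
  simp only [mul_add, Finset.sum_add_distrib] at key
  have e1 : ∑ g : G, f g * ((m : ℂ) * ({p : P | g • p = p}.ncard : ℂ)) =
      (m : ℂ) * (Nat.card G : ℂ) * f 1 := by
    rw [Finset.sum_eq_single 1]
    · rw [hF, if_pos rfl]
      ring
    · intro g _ hg
      rw [hF, if_neg hg, mul_zero, mul_zero]
    · intro h1
      exact absurd (Finset.mem_univ _) h1
  have e2 : ∑ g : G, f g * ∑ c : Bl, (if par c (g • c) then (1 : ℂ) else 0) =
      ∑ c : Bl, ∑ g : G, (if g ∈ h.cstab ha c then f g else 0) := by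
    simp only [Finset.mul_sum, mul_ite, mul_one, mul_zero]
    rw [Finset.sum_comm]
    rfl
  have e3 : ∑ g : G, f g * (m * ∑ c : Bl, (if g • c = c then (1 : ℂ) else 0)) =
      m * ∑ c : Bl, ∑ g : G, (if g ∈ bstab G c then f g else 0) := by
    rw [Finset.sum_comm, Finset.mul_sum]
    refine Finset.sum_congr rfl fun g _ => ?_
    rw [← mul_assoc, mul_comm (f g), mul_assoc, Finset.mul_sum]
    simp only [mul_ite, mul_one, mul_zero]
    rfl
  have e4 : ∑ g : G, f g * (m : ℂ) = m * ∑ g : G, f g := by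
    rw [← Finset.sum_mul, mul_comm]
  rw [e1, e2, e3, e4] at key
  exact key

open scoped Classical in
theorem Par.card_cstab (h : Par I par k lam μ m r)
    (ha : ∀ (g : G) (p : P) (c : Bl), I (g • p) (g • c) ↔ I p c)
    (hfree : ∀ (g : G) (p : P), g • p = p → g = 1) (htr : ∀ p q : P, ∃ g : G, g • p = q)
    (c : Bl) : Nat.card (h.cstab ha c) = m * Nat.card (bstab G c) := by
  have : Fintype G := Fintype.ofFinite G
  have : Fintype Bl := Fintype.ofFinite Bl
  have h1 := master h ha hfree htr (fun _ => (1 : ℂ))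
  have hK : ∀ K : Subgroup G, ∑ g : G, (if g ∈ K then (1 : ℂ) else 0) = (Nat.card K : ℂ) := by
    intro K
    rw [← Finset.sum_filter, Finset.sum_const, nsmul_one]
    congr 1
    rw [← Fintype.card_subtype, Nat.card_eq_fintype_card]
  simp only [hK] at h1
  have hG : ∑ _g : G, (1 : ℂ) = (Nat.card G : ℂ) := by
    rw [Finset.sum_const, nsmul_one, Finset.card_univ, Nat.card_eq_fintype_card]
  rw [hG, mul_one, add_comm, Finset.mul_sum] at h1
  have h2 := add_right_cancel h1
  have h3 : ∑ c : Bl, Nat.card (h.cstab ha c) = ∑ c : Bl, m * Nat.card (bstab G c) := by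
    have h4 : ((∑ c : Bl, Nat.card (h.cstab ha c) : ℕ) : ℂ) =
        ((∑ c : Bl, m * Nat.card (bstab G c) : ℕ) : ℂ) := by
      push_cast
      exact h2
    exact_mod_cast h4
  exact (Finset.sum_eq_sum_iff_of_le fun c _ => card_le h ha c).1 h3 c (Finset.mem_univ c)

theorem Par.cstab_trans (h : Par I par k lam μ m r)
    (ha : ∀ (g : G) (p : P) (c : Bl), I (g • p) (g • c) ↔ I p c)
    (hfree : ∀ (g : G) (p : P), g • p = p → g = 1) (htr : ∀ p q : P, ∃ g : G, g • p = q)
    (c d : Bl) (hcd : par c d) : ∃ g : G, g • c = d := by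
  have h1 := h.card_cstab ha hfree htr c
  rw [orbit_card h ha c, mul_comm] at h1
  have h2 := Nat.eq_of_mul_eq_mul_right Nat.card_pos h1
  have h3 : MulAction.orbit (h.cstab ha c) c = {d | par c d} :=
    Set.eq_of_subset_of_ncard_le (orbit_sub h ha c) (by rw [h.cls c, h2]) (Set.toFinite _)
  have h4 : d ∈ MulAction.orbit (h.cstab ha c) c := by
    rw [h3]
    exact hcd
  obtain ⟨⟨g, hg⟩, hgd⟩ := h4
  exact ⟨g, hgd⟩

open scoped Classical in
private theorem sumT [Fintype Bl] (h : Par I par k lam μ m r)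
    (ha : ∀ (g : G) (p : P) (c : Bl), I (g • p) (g • c) ↔ I p c)
    (hfree : ∀ (g : G) (p : P), g • p = p → g = 1) (htr : ∀ p q : P, ∃ g : G, g • p = q)
    (L : G →* ℂˣ) (hL : L ≠ 1) :
    ∑ c : Bl, (if L ∈ ann (bstab G c) ∧ L ∉ ann (h.cstab ha c) then
      Nat.card (h.cstab ha c) else 0) = m * Nat.card G := by
  have : Fintype G := Fintype.ofFinite G
  have h1 := master h ha hfree htr (fun g => ((L g : ℂˣ) : ℂ))
  have hK : ∀ K : Subgroup G, ∑ g : G, (if g ∈ K then ((L g : ℂˣ) : ℂ) else 0) =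
      if L ∈ ann K then (Nat.card K : ℂ) else 0 := by
    intro K
    have h2 := sumK K (fun g => ((L g : ℂˣ) : ℂ))
    rw [← h2, sum_char L K]
    rfl
  have hS : ∑ g : G, ((L g : ℂˣ) : ℂ) = 0 := by
    have h2 := hK ⊤
    simp only [Subgroup.mem_top, if_true] at h2
    rw [h2, if_neg]
    intro h3
    exact hL (MonoidHom.ext fun g => h3 g (Subgroup.mem_top g))
  simp only [hK, hS, mul_zero, add_zero, map_one, Units.val_one, mul_one] at h1
  have h2 : ∀ c : Bl, (m : ℂ) * (if L ∈ ann (bstab G c) then (Nat.card (bstab G c) : ℂ) else 0) =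
      (if L ∈ ann (h.cstab ha c) then (Nat.card (h.cstab ha c) : ℂ) else 0) +
      ((if L ∈ ann (bstab G c) ∧ L ∉ ann (h.cstab ha c) then
        Nat.card (h.cstab ha c) else 0 : ℕ) : ℂ) := by
    intro c
    have h3 : (m : ℂ) * (Nat.card (bstab G c) : ℂ) = (Nat.card (h.cstab ha c) : ℂ) := by
      rw [h.card_cstab ha hfree htr c]
      push_cast
      rfl
    by_cases hb : L ∈ ann (bstab G c)
    · by_cases hc : L ∈ ann (h.cstab ha c)
      · rw [if_pos hb, if_pos hc, if_neg (fun h4 => h4.2 hc), h3, Nat.cast_zero, add_zero]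
      · rw [if_pos hb, if_neg hc, if_pos ⟨hb, hc⟩, h3, zero_add]
    · have hc : L ∉ ann (h.cstab ha c) := fun h4 => hb fun g hg => h4 g (bstab_le h ha c hg)
      rw [if_neg hb, if_neg hc, if_neg (fun h4 => hb h4.1), mul_zero, Nat.cast_zero, add_zero]
  rw [Finset.mul_sum] at h1
  simp only [h2, Finset.sum_add_distrib] at h1
  rw [add_comm] at h1
  have h3 := add_left_cancel h1
  have h4 : ((∑ c : Bl, (if L ∈ ann (bstab G c) ∧ L ∉ ann (h.cstab ha c) then
      Nat.card (h.cstab ha c) else 0) : ℕ) : ℂ) = ((m * Nat.card G : ℕ) : ℂ) := by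
    rw [Nat.cast_sum, Nat.cast_mul]
    exact h3.symm
  exact_mod_cast h4

theorem Par.exists_block (h : Par I par k lam μ m r)
    (ha : ∀ (g : G) (p : P) (c : Bl), I (g • p) (g • c) ↔ I p c)
    (hfree : ∀ (g : G) (p : P), g • p = p → g = 1) (htr : ∀ p q : P, ∃ g : G, g • p = q)
    (L : G →* ℂˣ) (hL : L ≠ 1) :
    ∃ c : Bl, L ∈ ann (bstab G c) ∧ L ∉ ann (h.cstab ha c) := by
  classical
  have : Fintype Bl := Fintype.ofFinite Bl
  by_contra hcon
  have h1 := sumT h ha hfree htr L hL
  rw [Finset.sum_eq_zero] at h1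
  · have h2 : 0 < m * Nat.card G := Nat.mul_pos (by have := h.m2; omega) Nat.card_pos
    omega
  · intro c _
    exact if_neg fun h2 => hcon ⟨c, h2⟩

private theorem swap (x g : G) (c : Bl) : x • (g • c) = g • (x • c) := by
  rw [smul_smul, smul_smul, mul_comm]

private theorem bstab_smul (g : G) (c : Bl) : bstab G (g • c) = bstab G c := by
  ext x
  change x • (g • c) = g • c ↔ x • c = c
  rw [swap]
  exact (MulAction.injective g).eq_iff

private theorem cstab_smul (h : Par I par k lam μ m r)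
    (ha : ∀ (g : G) (p : P) (c : Bl), I (g • p) (g • c) ↔ I p c) (g : G) (c : Bl) :
    h.cstab ha (g • c) = h.cstab ha c := by
  ext x
  rw [h.mem_cstab, h.mem_cstab, swap]
  exact h.par_smul ha g c (x • c)

theorem Par.unique_orbit (h : Par I par k lam μ m r)
    (ha : ∀ (g : G) (p : P) (c : Bl), I (g • p) (g • c) ↔ I p c)
    (hfree : ∀ (g : G) (p : P), g • p = p → g = 1) (htr : ∀ p q : P, ∃ g : G, g • p = q)
    (L : G →* ℂˣ) (c d : Bl) (hc : L ∈ ann (bstab G c)) (hc' : L ∉ ann (h.cstab ha c))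
    (hd : L ∈ ann (bstab G d)) (hd' : L ∉ ann (h.cstab ha d)) :
    ∃ g : G, g • c = d := by
  classical
  have : Fintype Bl := Fintype.ofFinite Bl
  have hL : L ≠ 1 := by
    rintro rfl
    exact hc' (one_mem _)
  by_contra hcon
  have hsum := sumT h ha hfree htr L hL
  set F : Bl → ℕ := fun c => if L ∈ ann (bstab G c) ∧ L ∉ ann (h.cstab ha c) then
    Nat.card (h.cstab ha c) else 0 with hF
  have hsum' : ∑ c : Bl, F c = m * Nat.card G := hsum
  set O : Finset Bl := (MulAction.orbit G c).toFinset with hO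
  have hdO : d ∉ O := by
    rw [hO, Set.mem_toFinset]
    rintro ⟨g, hg⟩
    exact hcon ⟨g, hg⟩
  have h1 : ∑ e ∈ O, F e = m * Nat.card G := by
    have h2 : ∀ e ∈ O, F e = Nat.card (h.cstab ha c) := by
      intro e he
      rw [hO, Set.mem_toFinset] at he
      obtain ⟨g, rfl⟩ := he
      change (if L ∈ ann (bstab G (g • c)) ∧ L ∉ ann (h.cstab ha (g • c)) then
        Nat.card (h.cstab ha (g • c)) else 0) = _
      rw [bstab_smul, cstab_smul, if_pos ⟨hc, hc'⟩]
    rw [Finset.sum_congr rfl h2, Finset.sum_const, smul_eq_mul, h.card_cstab ha hfree htr c,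
      hO, ← Set.ncard_eq_toFinset_card', ← MulAction.index_stabilizer]
    have h3 := Subgroup.card_mul_index (MulAction.stabilizer G c)
    rw [← h3]
    change _ = m * (Nat.card (bstab G c) * _)
    ring
  have h2 : ∑ e ∈ insert d O, F e ≤ ∑ e : Bl, F e :=
    Finset.sum_le_sum_of_subset (Finset.subset_univ _)
  rw [Finset.sum_insert hdO, h1, hsum'] at h2
  have h3 : F d = Nat.card (h.cstab ha d) := if_pos ⟨hd, hd'⟩
  have h4 : 0 < Nat.card (h.cstab ha d) := Nat.card_pos
  omega

end

end Pool.Agent.AF
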