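import Pool.Agent.Lib.MP_c0e0de_co.AF.Defs

/-!
# TASK AF A2: parallelism is determined by incidence; the fix formula

PROOF of `par_iff`.  If `par c d` and a point `p` is on both then by uniqueness in
`h.aff.euclid c p` (both `c` and `d` are parallel to `c` and contain `p`) `c = d`.  If `¬ par c d`
then the two blocks have `μ > 0` common points and `c ≠ d` (`par` is reflexive).

PROOF of `ext_block`.  If `c`, `d` have the same points: they have a common point (`k ≥ 2`).  If
`par c d` then `c = d` by `par_iff`.  If not, `{p | I p c ∧ I p d} = {p | I p c}`, so `μ = k = μ m`,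
contradiction with `m ≥ 2`.

PROOF of `par_map`: immediate from `par_iff`.

PROOF of `fix` (the fix formula).  Count the pairs `(p, c)` with `I p c` and `I (σ p) c`.
For fixed `p`: `r` if `σ p = p`, `lam` otherwise.
For fixed `c`: put `d = τ.symm c`; `I (σ p) c ↔ I p d`; so the number of `p` is the number of common
points of `c` and `d`: `k` if `d = c`; `0` if `par c d`, `d ≠ c`; `μ` if `¬ par c d`.  Also
`d = c ↔ τ c = c` and `par c d ↔ par c (τ c)` (apply `par_map` and symmetry).
Let `F = {p | σ p = p}.ncard`, `B = {c | τ c = c}.ncard`, `E = {c | par c (τ c)}.ncard`,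
`v = Nat.card P = μ m m`, `b = Nat.card Bl = m r`.  Then
`r F + lam (v - F) = k B + μ (b - E)`, that is `(r - lam) F + lam μ m m + μ E = μ m B + μ m r`.
Here `r - lam = m lam + 1 - lam = μ m` (`hlam`).  Divide by `μ`:
`m F + lam m m + E = m B + m r = m B + m (m lam + 1)`.  So `m F + E = m B + m`.
-/

namespace Pool.Agent.AF

variable {P Bl : Type} [Finite P] [Finite Bl] {I : P → Bl → Prop} {par : Bl → Bl → Prop}
  {k lam μ m r : ℕ}

theorem Par.par_iff (h : Par I par k lam μ m r) (c d : Bl) :
    par c d ↔ (c = d ∨ ∀ p, ¬ (I p c ∧ I p d)) := by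
  constructor
  · intro hcd
    by_cases he : ∃ p, I p c ∧ I p d
    · obtain ⟨p, hc, hd⟩ := he
      exact Or.inl ((h.aff.euclid c p).unique ⟨h.aff.equiv.refl c, hc⟩ ⟨hcd, hd⟩)
    · exact Or.inr fun p hp => he ⟨p, hp⟩
  · rintro (rfl | hd)
    · exact h.aff.equiv.refl c
    · by_contra hcd
      have h1 := h.aff.meet c d hcd
      have h2 : {p : P | I p c ∧ I p d} = ∅ := Set.eq_empty_iff_forall_notMem.2 fun p hp => hd p hp
      rw [h2, Set.ncard_empty] at h1
      have h3 := h.aff.mu_pos
      omega

theorem Par.ext_block (h : Par I par k lam μ m r) (c d : Bl) (hcd : ∀ p, I p c ↔ I p d) :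
    c = d := by
  have hk := h.aff.block c
  have h2 := h.aff.two_le
  have hne : {p : P | I p c}.Nonempty := by
    rw [Set.nonempty_iff_ne_empty]
    intro h0
    rw [h0, Set.ncard_empty] at hk
    omega
  obtain ⟨p, hp⟩ := hne
  have hp' : I p c := hp
  by_cases hpar : par c d
  · rcases (h.par_iff c d).1 hpar with h3 | h3
    · exact h3
    · exact absurd ⟨hp', (hcd p).1 hp'⟩ (h3 p)
  · exfalso
    have h3 := h.aff.meet c d hpar
    have h4 : {q : P | I q c ∧ I q d} = {q : P | I q c} := by
      ext q
      exact ⟨fun hq => hq.1, fun hq => ⟨hq, (hcd q).1 hq⟩⟩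
    rw [h4, hk, h.hk] at h3
    have h5 := h.m2
    have h6 := h.aff.mu_pos
    nlinarith

theorem Par.par_map (h : Par I par k lam μ m r) (σ : Equiv.Perm P) (τ : Equiv.Perm Bl)
    (ha : ∀ p c, I (σ p) (τ c) ↔ I p c) (c d : Bl) : par (τ c) (τ d) ↔ par c d := by
  rw [h.par_iff, h.par_iff]
  refine or_congr τ.injective.eq_iff ?_
  constructor
  · intro h1 p hp
    exact h1 (σ p) ⟨(ha p c).2 hp.1, (ha p d).2 hp.2⟩
  · intro h1 p hp
    refine h1 (σ.symm p) ⟨?_, ?_⟩
    · rw [← ha, Equiv.apply_symm_apply]
      exact hp.1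
    · rw [← ha, Equiv.apply_symm_apply]
      exact hp.2

private theorem A2_ncard {α : Type} [Fintype α] (q : α → Prop) [DecidablePred q] :
    {x | q x}.ncard = ∑ x : α, if q x then 1 else 0 := by
  rw [Set.ncard_eq_toFinset_card', Set.toFinset_ofPred, Finset.card_filter]

theorem Par.fix (h : Par I par k lam μ m r) (σ : Equiv.Perm P) (τ : Equiv.Perm Bl)
    (ha : ∀ p c, I (σ p) (τ c) ↔ I p c) :
    m * {p : P | σ p = p}.ncard + {c : Bl | par c (τ c)}.ncard
      = m * {c : Bl | τ c = c}.ncard + m := by
  classical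
  have : Fintype P := Fintype.ofFinite P
  have : Fintype Bl := Fintype.ofFinite Bl
  have hp1 : ∀ p : P, {c : Bl | I p c ∧ I (σ p) c}.ncard + lam * (if σ p = p then 1 else 0) =
      r * (if σ p = p then 1 else 0) + lam := by
    intro p
    by_cases hp : σ p = p
    · have h1 : {c : Bl | I p c ∧ I (σ p) c} = {c : Bl | I p c} := by
        ext c
        rw [hp]
        exact ⟨fun hq => hq.1, fun hq => ⟨hq, hq⟩⟩
      rw [h1, h.deg p, if_pos hp]
      ring
    · rw [h.aff.pair p (σ p) fun h0 => hp h0.symm, if_neg hp]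
      ring
  have hc1 : ∀ c : Bl, {p : P | I p c ∧ I (σ p) c}.ncard + μ * (if par c (τ c) then 1 else 0) =
      k * (if τ c = c then 1 else 0) + μ := by
    intro c
    have e1 : ∀ p, I (σ p) c ↔ I p (τ.symm c) := by
      intro p
      rw [← ha p (τ.symm c), Equiv.apply_symm_apply]
    have e2 : par c (τ.symm c) ↔ par c (τ c) := by
      rw [← h.par_map σ τ ha c (τ.symm c), Equiv.apply_symm_apply]
      exact ⟨fun h0 => h.aff.equiv.symm h0, fun h0 => h.aff.equiv.symm h0⟩
    have e3 : {p : P | I p c ∧ I (σ p) c} = {p : P | I p c ∧ I p (τ.symm c)} := by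
      ext p
      exact and_congr Iff.rfl (e1 p)
    rw [e3]
    by_cases hc : τ c = c
    · have h1 : τ.symm c = c := by
        rw [Equiv.symm_apply_eq, hc]
      have h2 : {p : P | I p c ∧ I p c} = {p : P | I p c} := by
        ext p
        exact ⟨fun hq => hq.1, fun hq => ⟨hq, hq⟩⟩
      rw [h1, h2, h.aff.block c, hc, if_pos (h.aff.equiv.refl c), if_pos rfl]
      ring
    · have h1 : ¬ c = τ.symm c := by
        intro h0
        apply hc
        have h00 := congrArg τ h0
        rw [Equiv.apply_symm_apply] at h00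
        exact h00
      by_cases hpar : par c (τ c)
      · have h2 : {p : P | I p c ∧ I p (τ.symm c)} = ∅ := by
          refine Set.eq_empty_iff_forall_notMem.2 fun p hp => ?_
          rcases (h.par_iff c (τ.symm c)).1 (e2.2 hpar) with h3 | h3
          · exact h1 h3
          · exact h3 p hp
        rw [h2, Set.ncard_empty, if_pos hpar, if_neg hc]
        ring
      · rw [h.aff.meet c (τ.symm c) fun h0 => hpar (e2.1 h0), if_neg hpar, if_neg hc]
        ring
  have hS : ∑ p : P, {c : Bl | I p c ∧ I (σ p) c}.ncard =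
      ∑ c : Bl, {p : P | I p c ∧ I (σ p) c}.ncard := by
    simp only [A2_ncard]
    exact Finset.sum_comm
  have hsp : ∑ p : P, {c : Bl | I p c ∧ I (σ p) c}.ncard + lam * {p : P | σ p = p}.ncard =
      r * {p : P | σ p = p}.ncard + Nat.card P * lam := by
    rw [A2_ncard (fun p : P => σ p = p), Finset.mul_sum, Finset.mul_sum, ← Finset.sum_add_distrib,
      Finset.sum_congr rfl fun p _ => hp1 p, Finset.sum_add_distrib, Finset.sum_const,
      Finset.card_univ, Nat.card_eq_fintype_card, smul_eq_mul]
  have hsc : ∑ c : Bl, {p : P | I p c ∧ I (σ p) c}.ncard + μ * {c : Bl | par c (τ c)}.ncard =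
      k * {c : Bl | τ c = c}.ncard + Nat.card Bl * μ := by
    rw [A2_ncard (fun c : Bl => par c (τ c)), A2_ncard (fun c : Bl => τ c = c), Finset.mul_sum,
      Finset.mul_sum, ← Finset.sum_add_distrib,
      Finset.sum_congr rfl fun c _ => hc1 c, Finset.sum_add_distrib, Finset.sum_const,
      Finset.card_univ, Nat.card_eq_fintype_card, smul_eq_mul]
  rw [hS] at hsp
  generalize {p : P | σ p = p}.ncard = F at *
  generalize {c : Bl | par c (τ c)}.ncard = E at *
  generalize {c : Bl | τ c = c}.ncard = B at *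
  generalize ∑ c : Bl, {p : P | I p c ∧ I (σ p) c}.ncard = S at *
  have hv := h.hv
  have hb := h.hb
  have hk := h.hk
  have hr := h.hr
  have hl := h.hlam
  have hmu := h.aff.mu_pos
  rw [hv] at hsp
  rw [hb, hk] at hsc
  have h1 : r * F = (μ * m + lam) * F := by
    rw [hr, ← hl]
    ring
  have h2 : μ * (m * F + E) = μ * (m * B + m) := by
    have h3 : S + lam * F = (μ * m + lam) * F + μ * m * m * lam := by rw [← h1]; exact hsp
    have h4 : S + μ * E = μ * m * B + m * r * μ := hsc
    have h5 : S = μ * m * F + μ * m * m * lam := by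
      have h6 : S + lam * F = (μ * m * F + μ * m * m * lam) + lam * F := by rw [h3]; ring
      omega
    rw [h5, hr] at h4
    have h7 : μ * (m * F + E) + μ * m * m * lam = μ * (m * B + m) + μ * m * m * lam := by
      calc μ * (m * F + E) + μ * m * m * lam = μ * m * F + μ * m * m * lam + μ * E := by ring
        _ = μ * m * B + m * (m * lam + 1) * μ := h4
        _ = μ * (m * B + m) + μ * m * m * lam := by ring
    exact Nat.add_right_cancel h7
  exact Nat.eq_of_mul_eq_mul_left hmu h2

end Pool.Agent.AF
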