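import Pool.Agent.Lib.MP_c0e0de_co.AF.A2

/-!
# TASK AF A3: a fixed-point-free automorphism of prime order `ℓ` forces `ℓ ∣ m`

PROOF. Let `E = {c | par c (τ c)}`, `B = {c | τ c = c}`.  `σ` has no fixed point, so `Par.fix`
gives `E.ncard = m * (B.ncard + 1)`.  If every `c ∈ E` were parallel to some `d ∈ B`, then
`E ⊆ ⋃ d ∈ B, {c | par d c}` would have at most `m * B.ncard` elements (`h.cls`), contradiction.
So there is `c` with `par c (τ c)` and no `d` with `par c d`, `τ d = d`.  The class
`S = {d | par c d}` is mapped to itself by `τ` (`par_map`, transitivity), has `m` elements, `τ` has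
no fixed point on it and `τ ^ ℓ = 1`: every orbit of the group generated by `τ` on `S` has length
`ℓ`, so `ℓ ∣ m`.  (In Lean: the zmultiples/zpowers group of the restricted permutation is an
`ℓ`-group; `IsPGroup.card_modEq_card_fixedPoints`; or
`Equiv.Perm.card_fixedPoints_modEq : f ^ p ^ n = 1 → card α ≡ card (fixedPoints f) [MOD p]`.)
-/

namespace Pool.Agent.AF

variable {P Bl : Type} [Finite P] [Finite Bl] {I : P → Bl → Prop} {par : Bl → Bl → Prop}
  {k lam μ m r : ℕ}

theorem Par.prime_dvd (h : Par I par k lam μ m r) (σ : Equiv.Perm P) (τ : Equiv.Perm Bl)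
    (ha : ∀ p c, I (σ p) (τ c) ↔ I p c) (ℓ : ℕ) (hℓ : ℓ.Prime) (hτ : τ ^ ℓ = 1)
    (hfix : ∀ p, σ p ≠ p) : ℓ ∣ m := by
  classical
  have hP0 : {p : P | σ p = p}.ncard = 0 := by
    rw [Set.ncard_eq_zero]
    ext p
    simp only [Set.mem_ofPred_eq, Set.mem_empty_iff_false, iff_false]
    exact hfix p
  have hE := h.fix σ τ ha
  rw [hP0, mul_zero, zero_add] at hE
  have hm2 := h.m2
  have hrefl : ∀ c, par c c := h.aff.equiv.refl
  have hsymm : ∀ {c d}, par c d → par d c := fun hcd => h.aff.equiv.symm hcd
  have htrans : ∀ {c d e}, par c d → par d e → par c e := fun h1 h2 => h.aff.equiv.trans h1 h2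
  obtain ⟨c, hc, hcn⟩ : ∃ c, par c (τ c) ∧ ∀ d, τ d = d → ¬ par d c := by
    by_contra hcon
    push Not at hcon
    have := Fintype.ofFinite Bl
    have h1 : (Finset.univ.filter fun c : Bl => par c (τ c)) ⊆
        (Finset.univ.filter fun c : Bl => τ c = c).biUnion
          (fun d => Finset.univ.filter fun c : Bl => par d c) := by
      intro c hc
      obtain ⟨d, hd, hdc⟩ := hcon c (Finset.mem_filter.mp hc).2
      rw [Finset.mem_biUnion]
      exact ⟨d, Finset.mem_filter.mpr ⟨Finset.mem_univ _, hd⟩,
        Finset.mem_filter.mpr ⟨Finset.mem_univ _, hdc⟩⟩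
    have h2 := (Finset.card_le_card h1).trans
      (Finset.card_biUnion_le_card_mul (Finset.univ.filter fun c : Bl => τ c = c)
        (fun d => Finset.univ.filter fun c : Bl => par d c) m (fun d _ => by
          rw [← h.cls d, Set.ncard_eq_toFinset_card']
          refine le_of_eq ?_
          congr 1
          ext e; simp))
    have h3 : {c : Bl | par c (τ c)}.ncard = (Finset.univ.filter fun c : Bl => par c (τ c)).card := by
      rw [Set.ncard_eq_toFinset_card']
      congr 1
      ext e; simp
    have h4 : {c : Bl | τ c = c}.ncard = (Finset.univ.filter fun c : Bl => τ c = c).card := by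
      rw [Set.ncard_eq_toFinset_card']
      congr 1
      ext e; simp
    rw [h3, h4] at hE
    rw [mul_comm] at h2
    omega
  have hS : ∀ d, par c (τ d) ↔ par c d := by
    intro d
    constructor
    · intro hd
      have h1 : par (τ c) (τ d) := htrans (hsymm hc) hd
      exact (h.par_map σ τ ha c d).1 h1
    · intro hd
      exact htrans hc ((h.par_map σ τ ha c d).2 hd)
  have := Fintype.ofFinite {d // par c d}
  have hfact : Fact ℓ.Prime := ⟨hℓ⟩
  let f : Equiv.Perm {d // par c d} := τ.subtypePerm hS
  have hf : f ^ ℓ = 1 := by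
    change (τ.subtypePerm hS) ^ ℓ = 1
    rw [Equiv.Perm.subtypePerm_pow]
    ext x
    change (τ ^ ℓ) x.1 = x.1
    rw [hτ]
    rfl
  have hcard : Fintype.card {d // par c d} = m := by
    rw [← h.cls c, ← Nat.card_eq_fintype_card]
    rfl
  let g : Function.End {d // par c d} := fun x => f x
  have hg : g ^ ℓ ^ 1 = 1 := by
    rw [pow_one]
    have h1 : ∀ n : ℕ, ∀ x, (g ^ n) x = (f ^ n) x := by
      intro n
      induction n with
      | zero => intro x; rfl
      | succ n ih =>
        intro x
        rw [pow_succ, pow_succ]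
        change (g ^ n) (g x) = (f ^ n) (f x)
        rw [ih]
    funext x
    rw [h1 ℓ x, hf]
    rfl
  have hmod := Equiv.Perm.card_fixedPoints_modEq (f := g) (p := ℓ) (n := 1) hg
  have hempty : Fintype.card (Function.fixedPoints g) = 0 := by
    rw [Fintype.card_eq_zero_iff]
    constructor
    rintro ⟨x, hx⟩
    have h1 : f x = x := hx
    have h2 : τ x.1 = x.1 := congrArg Subtype.val h1
    exact hcn x.1 h2 (hsymm x.2)
  rw [hempty, hcard] at hmod
  exact (Nat.modEq_zero_iff_dvd).1 hmod

end Pool.Agent.AF
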