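import Pool.Agent.Lib.MP_c0e0de_co.AF.A3

/-!
# TASK AF A8: semiregular groups with at most four orbits, `m ≥ 3` a prime power

PROOF. `G` acts freely on `P`, so `G` is finite and `Nat.card P = |G| * ω`, where `ω` is the number
of orbits.  Let `m = p ^ a`, `p` prime, `a ≥ 1`.
(1) Every prime `ℓ` dividing `|G|` is `p`: by Cauchy there is `g ∈ G` of order `ℓ`; it has no fixed
point; `Par.prime_dvd` (with `MulAction.toPerm g`) gives `ℓ ∣ m`.  So `|G|` is a power of `p`.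
(2) `Nat.card P = μ m m` and `Nat.card P = ω p^f` with `1 ≤ ω ≤ 4`.  So `μ = t p^c` where
`p ∤ t` and `t ∣ ω`: `t ∈ {1,2,3,4}` (write `ω = t p^j`, `p ∤ t`; `p^(2a)` divides `t p^(j+f)`, so
`2a ≤ j + f`).  For `m ≥ 3` we show `t = 1`, using `(m - 1) ∣ (μ - 1)` (`Par.exists_lam0`).
Since `p^a ≡ 1 mod (p^a - 1)` we may replace `c` by `c' = c % a`: `(p^a - 1) ∣ (t p^{c'} - 1)`,
`0 ≤ c' < a`.
* `t` even (so `p` odd, `p^a - 1` even, `t p^{c'} - 1` odd): contradiction.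
* `t = 3`, `p ≥ 5` (`p ≠ 3` because `p ∤ t`): `0 < 3 p^{c'} - 1 < p^a - 1`: contradiction.
* `t = 3`, `p = 2`, `a ≥ 2` (`m ≥ 3`): if `c' ≤ a - 2`: `0 < 3·2^{c'} - 1 < 2^a - 1` (for `a ≥ 2`:
  `3·2^{a-2} < 2^a`), contradiction; if `c' = a - 1`: `3·2^{a-1} - 1 = (2^a - 1) + 2^{a-1}` and
  `0 < 2^{a-1} < 2^a - 1`: contradiction.
(3) `t = 1`: `μ = p^c`, and `(p^a - 1) ∣ (p^c - 1)` implies `a ∣ c` (reduce `c` mod `a`:
`p^{c'} - 1 < p^a - 1` must be `0`, so `c' = 0`).  So `μ = m^(c/a)` and `Nat.card P = m^(c/a + 2)`.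
-/

namespace Pool.Agent.AF

variable {P Bl : Type} [Finite P] [Finite Bl] {I : P → Bl → Prop} {par : Bl → Bl → Prop}
  {k lam μ m r : ℕ}

theorem arith_one (p a c : ℕ) (hp : p.Prime) (ha : 1 ≤ a)
    (hd : (p ^ a - 1) ∣ (p ^ c - 1)) : a ∣ c := by
  have h1 := Nat.pow_sub_one_gcd_pow_sub_one p a c
  rw [Nat.gcd_eq_left hd] at h1
  have h2 : 0 < p ^ a := Nat.pow_pos hp.pos
  have h3 : 0 < p ^ (a.gcd c) := Nat.pow_pos hp.pos
  have h4 : p ^ a = p ^ (a.gcd c) := by omega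
  have h5 : a = a.gcd c := Nat.pow_right_injective hp.two_le h4
  rw [h5]
  exact Nat.gcd_dvd_right a c

/-- reduction of the exponent -/
private theorem A8_red (p a t c : ℕ) (hp : p.Prime) (ht0 : 1 ≤ t)
    (hd : (p ^ a - 1) ∣ (t * p ^ c - 1)) : (p ^ a - 1) ∣ (t * p ^ (c % a) - 1) := by
  have hpos : ∀ n, 1 ≤ p ^ n := fun n => Nat.pow_pos hp.pos
  have h1 : 1 ≡ p ^ a [MOD (p ^ a - 1)] := (Nat.modEq_iff_dvd' (hpos a)).2 dvd_rfl
  have h2 : 1 ≡ t * p ^ c [MOD (p ^ a - 1)] :=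
    (Nat.modEq_iff_dvd' (Nat.mul_pos ht0 (hpos c))).2 hd
  have h3 : 1 ≡ (p ^ a) ^ (c / a) [MOD (p ^ a - 1)] := by
    have := h1.pow (c / a)
    rwa [one_pow] at this
  have h4 : p ^ (c % a) ≡ p ^ c [MOD (p ^ a - 1)] := by
    have h5 := h3.mul_right (p ^ (c % a))
    rw [one_mul, ← pow_mul, ← pow_add, Nat.div_add_mod] at h5
    exact h5
  have h6 : 1 ≡ t * p ^ (c % a) [MOD (p ^ a - 1)] := h2.trans (h4.mul_left t).symm
  exact (Nat.modEq_iff_dvd' (Nat.mul_pos ht0 (hpos _))).1 h6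

/-- even `t` -/
private theorem A8_even (p a t c : ℕ) (hp : p.Prime) (ht0 : 1 ≤ t)
    (h2 : 2 ∣ t) (hpt : ¬ p ∣ t) (hd : (p ^ a - 1) ∣ (t * p ^ c - 1)) : False := by
  have hodd : Odd p := by
    rcases hp.eq_two_or_odd' with h | h
    · exact absurd (h ▸ h2) hpt
    · exact h
  obtain ⟨u, hu⟩ := hodd.pow (n := a)
  have h3 : 2 ∣ p ^ a - 1 := ⟨u, by omega⟩
  have h4 : 2 ∣ t * p ^ c - 1 := h3.trans hd
  have h5 : 2 ∣ t * p ^ c := h2.mul_right _
  have h6 : 0 < t * p ^ c := Nat.mul_pos ht0 (Nat.pow_pos hp.pos)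
  omega

theorem arith_four (p a t c : ℕ) (hp : p.Prime) (ha : 1 ≤ a) (hm : 3 ≤ p ^ a) (ht0 : 1 ≤ t)
    (ht : t ≤ 4) (hpt : ¬ p ∣ t) (hd : (p ^ a - 1) ∣ (t * p ^ c - 1)) : t = 1 ∧ a ∣ c := by
  have ht3 : t ≠ 3 := by
    rintro rfl
    have hr := A8_red p a 3 c hp ht0 hd
    have hlt : c % a < a := Nat.mod_lt _ (by omega)
    obtain ⟨b, rfl⟩ : ∃ b, a = b + 1 := ⟨a - 1, by omega⟩
    generalize c % (b + 1) = e at hr hlt
    have hpe : 0 < p ^ e := Nat.pow_pos hp.pos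
    rcases hp.eq_two_or_odd' with h2 | hodd
    · subst h2
      have hb : 1 ≤ b := by
        by_contra hb
        have : b = 0 := by omega
        subst this
        norm_num at hm
      obtain ⟨d, rfl⟩ : ∃ d, b = d + 1 := ⟨b - 1, by omega⟩
      rcases Nat.lt_or_ge e (d + 1) with he | he
      · have h3 : 2 ^ e ≤ 2 ^ d := Nat.pow_le_pow_right (by norm_num) (by omega)
        have h4 : 2 ^ (d + 1 + 1) = 4 * 2 ^ d := by ring
        have h5 := Nat.le_of_dvd (by omega) hr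
        have h6 : 0 < 2 ^ d := Nat.pow_pos (by norm_num)
        omega
      · have he' : e = d + 1 := by omega
        subst he'
        have h4 : 2 ^ (d + 1 + 1) = 4 * 2 ^ d := by ring
        have h4' : 2 ^ (d + 1) = 2 * 2 ^ d := by ring
        have h6 : 0 < 2 ^ d := Nat.pow_pos (by norm_num)
        have h7 : 3 * 2 ^ (d + 1) - 1 = (2 ^ (d + 1 + 1) - 1) + 2 ^ (d + 1) := by omega
        rw [h7] at hr
        have h8 := Nat.le_of_dvd (by omega) ((Nat.dvd_add_right dvd_rfl).1 hr)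
        omega
    · have hp5 : 5 ≤ p := by
        have h1 := hp.two_le
        have h3 : p ≠ 3 := fun h => hpt (h ▸ dvd_rfl)
        obtain ⟨u, hu⟩ := hodd
        omega
      have h3 : p ^ e ≤ p ^ b := Nat.pow_le_pow_right hp.pos (by omega)
      have h4 : p ^ (b + 1) = p ^ b * p := pow_succ p b
      have h6 : 0 < p ^ b := Nat.pow_pos hp.pos
      have h7 : p ^ b * 5 ≤ p ^ b * p := Nat.mul_le_mul_left _ hp5
      have h5 := Nat.le_of_dvd (by omega) hr
      omega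
  have ht2 : t ≠ 2 := by
    rintro rfl
    exact A8_even p a 2 c hp ht0 dvd_rfl hpt hd
  have ht4 : t ≠ 4 := by
    rintro rfl
    exact A8_even p a 4 c hp ht0 (by norm_num) hpt hd
  have ht1 : t = 1 := by omega
  subst ht1
  rw [one_mul] at hd
  exact ⟨rfl, arith_one p a c hp ha hd⟩

/-- the common part: the group is finite, of order a power of `p` -/
private theorem A8_group (h : Par I par k lam μ m r) (G : Type) [Group G]
    [MulAction G P] [MulAction G Bl] (ha : ∀ (g : G) (p : P) (c : Bl), I (g • p) (g • c) ↔ I p c)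
    (hfree : ∀ (g : G) (p : P), g • p = p → g = 1) (p a : ℕ) (hp : p.Prime)
    (hpm : p ^ a = m) :
    (∃ f : ℕ, Nat.card G = p ^ f) ∧
      Nat.card P = Nat.card (MulAction.orbitRel.Quotient G P) * Nat.card G := by
  have hcard : 0 < Nat.card P := by
    have h1 := h.aff.mu_pos
    have h2 := h.m2
    rw [h.hv]
    positivity
  have hne : Nonempty P := (Nat.card_pos_iff.1 hcard).1
  obtain ⟨x₀⟩ := hne
  have hfin : Finite G := by
    refine Finite.of_injective (fun g : G => g • x₀) fun g g' hg => ?_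
    have h1 : (g'⁻¹ * g) • x₀ = x₀ := by
      rw [mul_smul]
      show g'⁻¹ • (g • x₀) = x₀
      rw [show g • x₀ = g' • x₀ from hg, inv_smul_smul]
    have h2 := hfree _ _ h1
    exact (inv_mul_eq_one.1 h2).symm
  constructor
  · refine ⟨_, Nat.eq_prime_pow_of_unique_prime_dvd (p := p) (Nat.card_pos (α := G)).ne' ?_⟩
    intro ℓ hℓ hdvd
    have : Fact ℓ.Prime := ⟨hℓ⟩
    obtain ⟨g, hg⟩ := exists_prime_orderOf_dvd_card' ℓ hdvd
    have h1 : ℓ ∣ m := by
      refine h.prime_dvd (MulAction.toPerm g) (MulAction.toPerm g) (fun q c => ha g q c) ℓ hℓ ?_ ?_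
      · have : (MulAction.toPermHom G Bl g) ^ ℓ = 1 := by
          rw [← map_pow, ← hg, pow_orderOf_eq_one, map_one]
        exact this
      · intro q hq
        have : g = 1 := hfree g q hq
        rw [this, orderOf_one] at hg
        exact hℓ.one_lt.ne hg
    rw [← hpm] at h1
    exact (Nat.prime_dvd_prime_iff_eq hℓ hp).1 (hℓ.dvd_of_dvd_pow h1)
  · have hst : ∀ b : P, MulAction.stabilizer G b = ⊥ := by
      intro b
      rw [Subgroup.eq_bot_iff_forall]
      intro g hg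
      exact hfree g b hg
    rw [Nat.card_congr (MulAction.selfEquivOrbitsQuotientProd hst), Nat.card_prod]

omit [Finite P] [Finite Bl] in
/-- from the number of orbits to the arithmetic -/
private theorem A8_arith (h : Par I par k lam μ m r) (p a f ω : ℕ) (hp : p.Prime)
    (hpm : p ^ a = m) (hv : Nat.card P = ω * p ^ f) :
    ∃ t c : ℕ, μ = t * p ^ c ∧ ¬ p ∣ t ∧ 1 ≤ t ∧ t ∣ ω ∧ (p ^ a - 1) ∣ (t * p ^ c - 1) := by
  obtain ⟨c, t, hpt, hμ⟩ := Nat.exists_eq_pow_mul_and_not_dvd (n := μ)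
    h.aff.mu_pos.ne' p hp.ne_one
  have ht1 : 1 ≤ t := by
    rcases Nat.eq_zero_or_pos t with h0 | h0
    · exact absurd (h0 ▸ dvd_zero p) hpt
    · exact h0
  refine ⟨t, c, by rw [hμ, mul_comm], hpt, ht1, ?_, ?_⟩
  · have h1 : t * (p ^ c * m * m) = ω * p ^ f := by
      rw [← hv, h.hv, hμ]
      ring
    have h2 : t ∣ ω * p ^ f := ⟨_, h1.symm⟩
    have h3 : Nat.Coprime t (p ^ f) :=
      Nat.Coprime.pow_right f ((Nat.Prime.coprime_iff_not_dvd hp).2 hpt).symm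
    exact h3.dvd_of_dvd_mul_right h2
  · obtain ⟨l0, -, hl⟩ := h.exists_lam0
    rw [hpm, mul_comm t, ← hμ]
    exact ⟨l0, by omega⟩

theorem Par.semireg (h : Par I par k lam μ m r) (G : Type) [Group G]
    [MulAction G P] [MulAction G Bl] (ha : ∀ (g : G) (p : P) (c : Bl), I (g • p) (g • c) ↔ I p c)
    (hfree : ∀ (g : G) (p : P), g • p = p → g = 1)
    (hor : Nat.card (MulAction.orbitRel.Quotient G P) ≤ 4) (hm : IsPrimePow m) (hm3 : 3 ≤ m) :
    ∃ n : ℕ, μ = m ^ n := by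
  obtain ⟨p, a, hp, ha0, hpm⟩ := hm
  have hp' : p.Prime := hp.nat_prime
  obtain ⟨⟨f, hf⟩, hv⟩ := A8_group h G ha hfree p a hp' hpm
  have hcard : 0 < Nat.card P := by
    have h1 := h.aff.mu_pos
    have h2 := h.m2
    rw [h.hv]
    positivity
  have hω0 : 0 < Nat.card (MulAction.orbitRel.Quotient G P) := by
    rcases Nat.eq_zero_or_pos (Nat.card (MulAction.orbitRel.Quotient G P)) with h0 | h0
    · rw [h0, zero_mul] at hv
      omega
    · exact h0
  rw [hf] at hv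
  obtain ⟨t, c, hμ, hpt, ht1, hdvd, hd⟩ := A8_arith h p a f _ hp' hpm hv
  have ht4 : t ≤ 4 := (Nat.le_of_dvd hω0 hdvd).trans hor
  obtain ⟨rfl, u, rfl⟩ := arith_four p a t c hp' ha0 (hpm ▸ hm3) ht1 ht4 hpt hd
  exact ⟨u, by rw [hμ, one_mul, pow_mul, hpm]⟩

/-- `t` prime to `p`, `t ≤ p^a + p - 2` and `(p^a - 1) ∣ (t p^c - 1)` imply `t = 1`. -/
theorem arith_gen (p a t c : ℕ) (hp : p.Prime) (ha : 1 ≤ a) (hm : 3 ≤ p ^ a) (ht0 : 1 ≤ t)
    (ht : t + 2 ≤ p ^ a + p) (hpt : ¬ p ∣ t) (hd : (p ^ a - 1) ∣ (t * p ^ c - 1)) :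
    t = 1 ∧ a ∣ c := by
  have hr := A8_red p a t c hp ht0 hd
  have hlt : c % a < a := Nat.mod_lt _ (by omega)
  have h2 := hp.two_le
  have hpa : p ∣ p ^ a := dvd_pow_self p (by omega)
  -- `t ≡ p ^ (a - c % a)`
  have hpos : ∀ n, 1 ≤ p ^ n := fun n => Nat.pow_pos hp.pos
  have h1 : 1 ≡ p ^ a [MOD (p ^ a - 1)] := (Nat.modEq_iff_dvd' (hpos a)).2 dvd_rfl
  have h3 : 1 ≡ t * p ^ (c % a) [MOD (p ^ a - 1)] :=
    (Nat.modEq_iff_dvd' (Nat.mul_pos ht0 (hpos _))).2 hr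
  obtain ⟨j, hj⟩ : ∃ j, a = c % a + j := ⟨a - c % a, by omega⟩
  have hj1 : 1 ≤ j := by omega
  have h4 : p ^ j ≡ t [MOD (p ^ a - 1)] := by
    have h5 := h3.mul_right (p ^ j)
    rw [one_mul, mul_assoc, ← pow_add, ← hj] at h5
    have h6 := h1.mul_left t
    rw [mul_one] at h6
    exact h5.trans h6.symm
  have hpj : p ∣ p ^ j := dvd_pow_self p (by omega)
  have hjle : p ^ j ≤ p ^ a := Nat.pow_le_pow_right hp.pos (by omega)
  have ht1 : t = 1 := by
    rcases Nat.lt_or_ge t (p ^ j) with hlt' | hge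
    · -- p^j - t is a positive multiple of p^a - 1, at most p^a - 1
      have h7 : (p ^ a - 1) ∣ (p ^ j - t) := (Nat.modEq_iff_dvd' hlt'.le).1 h4.symm
      have h8 := Nat.le_of_dvd (by omega) h7
      omega
    · have h7 : (p ^ a - 1) ∣ (t - p ^ j) := (Nat.modEq_iff_dvd' hge).1 h4
      rcases Nat.eq_or_lt_of_le hge with he | hlt'
      · exact absurd (he ▸ hpj) hpt
      · have h8 := Nat.le_of_dvd (by omega) h7
        have hpj' : p ≤ p ^ j := Nat.le_of_dvd (hpos j) hpj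
        omega
  subst ht1
  rw [one_mul] at hd
  exact ⟨rfl, arith_one p a c hp ha hd⟩

/-- Semiregular groups with at most `m + p - 2` orbits, `m ≥ 3` a power of `p`. -/
theorem Par.semireg_gen (h : Par I par k lam μ m r) (G : Type) [Group G]
    [MulAction G P] [MulAction G Bl] (ha : ∀ (g : G) (p : P) (c : Bl), I (g • p) (g • c) ↔ I p c)
    (hfree : ∀ (g : G) (p : P), g • p = p → g = 1) (p a : ℕ) (hp : p.Prime) (ha1 : 1 ≤ a)
    (hpm : m = p ^ a) (hm3 : 3 ≤ m)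
    (hor : Nat.card (MulAction.orbitRel.Quotient G P) + 2 ≤ m + p) :
    ∃ n : ℕ, μ = m ^ n := by
  obtain ⟨⟨f, hf⟩, hv⟩ := A8_group h G ha hfree p a hp hpm.symm
  have hcard : 0 < Nat.card P := by
    have h1 := h.aff.mu_pos
    have h2 := h.m2
    rw [h.hv]
    positivity
  have hω0 : 0 < Nat.card (MulAction.orbitRel.Quotient G P) := by
    rcases Nat.eq_zero_or_pos (Nat.card (MulAction.orbitRel.Quotient G P)) with h0 | h0
    · rw [h0, zero_mul] at hv
      omega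
    · exact h0
  rw [hf] at hv
  obtain ⟨t, c, hμ, hpt, ht1, hdvd, hd⟩ := A8_arith h p a f _ hp hpm.symm hv
  have ht4 : t ≤ Nat.card (MulAction.orbitRel.Quotient G P) := Nat.le_of_dvd hω0 hdvd
  obtain ⟨rfl, u, rfl⟩ := arith_gen p a t c hp ha1 (hpm ▸ hm3) ht1 (by rw [← hpm]; omega) hpt hd
  exact ⟨u, by rw [hμ, one_mul, pow_mul, ← hpm]⟩

/-- Version for one orbit, any prime power `m` (including `2`). -/
theorem Par.regular (h : Par I par k lam μ m r) (G : Type) [Group G]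
    [MulAction G P] [MulAction G Bl] (ha : ∀ (g : G) (p : P) (c : Bl), I (g • p) (g • c) ↔ I p c)
    (hfree : ∀ (g : G) (p : P), g • p = p → g = 1)
    (htr : ∀ p q : P, ∃ g : G, g • p = q) (hm : IsPrimePow m) :
    ∃ n : ℕ, μ = m ^ n := by
  obtain ⟨p, a, hp, ha0, hpm⟩ := hm
  have hp' : p.Prime := hp.nat_prime
  obtain ⟨⟨f, hf⟩, hv⟩ := A8_group h G ha hfree p a hp' hpm
  have hcard : 0 < Nat.card P := by
    have h1 := h.aff.mu_pos
    have h2 := h.m2
    rw [h.hv]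
    positivity
  have hω0 : 0 < Nat.card (MulAction.orbitRel.Quotient G P) := by
    rcases Nat.eq_zero_or_pos (Nat.card (MulAction.orbitRel.Quotient G P)) with h0 | h0
    · rw [h0, zero_mul] at hv
      omega
    · exact h0
  have hω1 : Nat.card (MulAction.orbitRel.Quotient G P) ≤ 1 := by
    have : Subsingleton (MulAction.orbitRel.Quotient G P) := by
      refine ⟨fun x y => ?_⟩
      induction x using Quotient.inductionOn' with
      | h x =>
        induction y using Quotient.inductionOn' with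
        | h y =>
          obtain ⟨g, hg⟩ := htr y x
          exact Quotient.sound' ⟨g, hg⟩
    exact Finite.card_le_one_iff_subsingleton.2 this
  rw [hf] at hv
  obtain ⟨t, c, hμ, hpt, ht1, hdvd, hd⟩ := A8_arith h p a f _ hp' hpm hv
  have ht : t = 1 := by
    have := Nat.le_of_dvd hω0 hdvd
    omega
  subst ht
  rw [one_mul] at hd hμ
  obtain ⟨u, rfl⟩ := arith_one p a c hp' ha0 hd
  exact ⟨u, by rw [hμ, pow_mul, hpm]⟩

end Pool.Agent.AF
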