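import Pool.Agent.Lib.MP_c0e0de_co.AF.A3
import Pool.Agent.Lib.MP_c0e0de_co.AF.A8

/-!
# AF C1: transitive groups with a normal series whose factors have cyclic Sylow subgroups

`HasCyclicSeries p G`: the finite group `G` has a chain `1 = N 0 ≤ N 1 ≤ ... ≤ N s = G` of normal
subgroups such that for every prime `q ≠ p` the Sylow `q`-subgroups of all factors
`N (i+1) / N i` are cyclic.

`Par.prime_dvd_pow`: an automorphism of order a power of the prime `q` that fixes no point forces
`q ∣ m`.

`Par.series`: if `m = p ^ a` and such a group is transitive on the points then `μ` is a power of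
`m`.  Proof: let `q ≠ p` be a prime dividing `Nat.card P`; let `s i` be the length of the orbits of
`N i` (independent of the point), `i` the last index with `¬ q ∣ s i`.  Take `g ∈ N (i+1)` of
`q`-power order whose image generates a Sylow `q`-subgroup of `N (i+1) / N i`.  It fixes a point `x`,
so the stabiliser of `x` in `N (i+1)` maps onto a subgroup of `N (i+1) / N i` of index prime to `q`,
and `s (i+1)` is `s i` times this index: not divisible by `q`, contradiction.
-/

namespace Pool.Agent.AF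

variable {P Bl : Type} [Finite P] [Finite Bl] {I : P → Bl → Prop} {par : Bl → Bl → Prop}
  {k lam μ m r : ℕ}

/-- The finite group `G` has a chain `1 = N 0 ≤ N 1 ≤ ... ≤ N s = G` of normal subgroups such that,
for every prime `q ≠ p`, the Sylow `q`-subgroups of all factors `N (i+1) / N i` are cyclic. -/
def HasCyclicSeries (p : ℕ) (G : Type) [Group G] : Prop :=
  ∃ (s : ℕ) (N : ℕ → Subgroup G) (_ : ∀ i, (N i).Normal), N 0 = ⊥ ∧ N s = ⊤ ∧
    ∀ i, i < s → N i ≤ N (i + 1) ∧ ∀ q : ℕ, q.Prime → q ≠ p →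
      ∀ Q : Sylow q (N (i + 1) ⧸ (N i).subgroupOf (N (i + 1))), IsCyclic Q

theorem Par.prime_dvd_pow (h : Par I par k lam μ m r) (σ : Equiv.Perm P) (τ : Equiv.Perm Bl)
    (ha : ∀ p c, I (σ p) (τ c) ↔ I p c) (ℓ j : ℕ) (hℓ : ℓ.Prime) (hτ : τ ^ ℓ ^ j = 1)
    (hfix : ∀ p, σ p ≠ p) : ℓ ∣ m := by
  classical
  have hP0 : {p : P | σ p = p}.ncard = 0 := by
    rw [Set.ncard_eq_zero]
    ext p
    simp only [Set.mem_ofPred_eq, Set.mem_empty_iff_false, iff_false]
    exact hfix p
  have hE := h.fix σ τ ha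
  rw [hP0, mul_zero, zero_add] at hE
  have hm2 := h.m2
  have hrefl : ∀ c, par c c := h.aff.equiv.refl
  have hsymm : ∀ {c d}, par c d → par d c := fun hcd => h.aff.equiv.symm hcd
  have htrans : ∀ {c d e}, par c d → par d e → par c e := fun h1 h2 => h.aff.equiv.trans h1 h2
  obtain ⟨c, hc, hcn⟩ : ∃ c, par c (τ c) ∧ ∀ d, τ d = d → ¬ par d c := by
    by_contra hcon
    push Not at hcon
    have := Fintype.ofFinite Bl
    have h1 : (Finset.univ.filter fun c : Bl => par c (τ c)) ⊆
        (Finset.univ.filter fun c : Bl => τ c = c).biUnion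
          (fun d => Finset.univ.filter fun c : Bl => par d c) := by
      intro c hc
      obtain ⟨d, hd, hdc⟩ := hcon c (Finset.mem_filter.mp hc).2
      rw [Finset.mem_biUnion]
      exact ⟨d, Finset.mem_filter.mpr ⟨Finset.mem_univ _, hd⟩,
        Finset.mem_filter.mpr ⟨Finset.mem_univ _, hdc⟩⟩
    have h2 := (Finset.card_le_card h1).trans
      (Finset.card_biUnion_le_card_mul (Finset.univ.filter fun c : Bl => τ c = c)
        (fun d => Finset.univ.filter fun c : Bl => par d c) m (fun d _ => by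
          rw [← h.cls d, Set.ncard_eq_toFinset_card']
          refine le_of_eq ?_
          congr 1
          ext e; simp))
    have h3 : {c : Bl | par c (τ c)}.ncard = (Finset.univ.filter fun c : Bl => par c (τ c)).card := by
      rw [Set.ncard_eq_toFinset_card']
      congr 1
      ext e; simp
    have h4 : {c : Bl | τ c = c}.ncard = (Finset.univ.filter fun c : Bl => τ c = c).card := by
      rw [Set.ncard_eq_toFinset_card']
      congr 1
      ext e; simp
    rw [h3, h4] at hE
    rw [mul_comm] at h2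
    omega
  have hS : ∀ d, par c (τ d) ↔ par c d := by
    intro d
    constructor
    · intro hd
      have h1 : par (τ c) (τ d) := htrans (hsymm hc) hd
      exact (h.par_map σ τ ha c d).1 h1
    · intro hd
      exact htrans hc ((h.par_map σ τ ha c d).2 hd)
  have := Fintype.ofFinite {d // par c d}
  have hfact : Fact ℓ.Prime := ⟨hℓ⟩
  let f : Equiv.Perm {d // par c d} := τ.subtypePerm hS
  have hf : f ^ ℓ ^ j = 1 := by
    change (τ.subtypePerm hS) ^ ℓ ^ j = 1
    rw [Equiv.Perm.subtypePerm_pow]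
    ext x
    change (τ ^ ℓ ^ j) x.1 = x.1
    rw [hτ]
    rfl
  have hcard : Fintype.card {d // par c d} = m := by
    rw [← h.cls c, ← Nat.card_eq_fintype_card]
    rfl
  let g : Function.End {d // par c d} := fun x => f x
  have hg : g ^ ℓ ^ j = 1 := by
    have h1 : ∀ n : ℕ, ∀ x, (g ^ n) x = (f ^ n) x := by
      intro n
      induction n with
      | zero => intro x; rfl
      | succ n ih =>
        intro x
        rw [pow_succ, pow_succ]
        change (g ^ n) (g x) = (f ^ n) (f x)
        rw [ih]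
    funext x
    rw [h1 (ℓ ^ j) x, hf]
    rfl
  have hmod := Equiv.Perm.card_fixedPoints_modEq (f := g) (p := ℓ) (n := j) hg
  have hempty : Fintype.card (Function.fixedPoints g) = 0 := by
    rw [Fintype.card_eq_zero_iff]
    constructor
    rintro ⟨x, hx⟩
    have h1 : f x = x := hx
    have h2 : τ x.1 = x.1 := congrArg Subtype.val h1
    exact hcn x.1 h2 (hsymm x.2)
  rw [hempty, hcard] at hmod
  exact (Nat.modEq_zero_iff_dvd).1 hmod

/-- A cyclic Sylow subgroup of a quotient is generated by the image of an element of prime power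
order. -/
theorem C1_lift {M : Type} [Group M] [Finite M] (K : Subgroup M) [K.Normal] (q : ℕ)
    (hq : q.Prime) (hcyc : ∀ Q : Sylow q (M ⧸ K), IsCyclic Q) :
    ∃ (g : M) (j : ℕ), g ^ q ^ j = 1 ∧
      q ^ (Nat.card (M ⧸ K)).factorization q ∣ orderOf (QuotientGroup.mk g : M ⧸ K) := by
  have hfq : Fact q.Prime := ⟨hq⟩
  obtain ⟨Q⟩ : Nonempty (Sylow q (M ⧸ K)) := inferInstance
  obtain ⟨⟨gb, hgb⟩, hgen⟩ := (hcyc Q).exists_generator
  obtain ⟨g', rfl⟩ := QuotientGroup.mk_surjective gb
  have hord : orderOf (QuotientGroup.mk g' : M ⧸ K) =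
      q ^ (Nat.card (M ⧸ K)).factorization q := by
    rw [← Q.card_eq_multiplicity, ← orderOf_eq_card_of_forall_mem_zpowers hgen,
      Subgroup.orderOf_mk]
  have ho := orderOf_pos g'
  obtain ⟨b, n', hn', hbn⟩ := Nat.exists_eq_pow_mul_and_not_dvd (n := orderOf g') ho.ne' q hq.ne_one
  refine ⟨g' ^ n', b, ?_, ?_⟩
  · rw [← pow_mul, mul_comm, ← hbn, pow_orderOf_eq_one]
  · have h1 : (QuotientGroup.mk (g' ^ n') : M ⧸ K) = (QuotientGroup.mk g' : M ⧸ K) ^ n' := rfl
    rw [h1, orderOf_pow, hord]
    have hco : Nat.Coprime (q ^ (Nat.card (M ⧸ K)).factorization q) n' :=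
      Nat.Coprime.pow_left _ ((Nat.Prime.coprime_iff_not_dvd hq).2 hn')
    rw [Nat.Coprime.gcd_eq_one hco, Nat.div_one]

/-- The orbit of `x` under `N'` has length `index of the image of the stabiliser` times the length
of the orbit under `N`. -/
theorem C1_step {G X : Type} [Group G] [Finite G] [MulAction G X] (N N' : Subgroup G)
    (hle : N ≤ N') [(N.subgroupOf N').Normal] (x : X) (q : ℕ) (hq : q.Prime)
    (hN : ¬ q ∣ Nat.card (MulAction.orbit N x)) (g : N') (hgx : g • x = x)
    (hord : q ^ (Nat.card (N' ⧸ N.subgroupOf N')).factorization q ∣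
      orderOf (QuotientGroup.mk g : N' ⧸ N.subgroupOf N')) :
    ¬ q ∣ Nat.card (MulAction.orbit N' x) := by
  set L : Subgroup N' := N.subgroupOf N' with hL
  set S : Subgroup N' := MulAction.stabilizer N' x with hS
  have hA : S.relIndex L * L.index = L.relIndex S * S.index := by
    have h1 := Subgroup.relIndex_mul_index (H := S ⊓ L) (K := L) inf_le_right
    have h2 := Subgroup.relIndex_mul_index (H := S ⊓ L) (K := S) inf_le_left
    rw [Subgroup.inf_relIndex_right] at h1
    rw [Subgroup.inf_relIndex_left] at h2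
    rw [h1, h2]
  have hgS : g ∈ S := hgx
  have hB : orderOf (QuotientGroup.mk g : N' ⧸ L) ∣ L.relIndex S := by
    refine orderOf_dvd_of_pow_eq_one ?_
    have h1 : (QuotientGroup.mk g : N' ⧸ L) ^ L.relIndex S =
        QuotientGroup.mk (g ^ L.relIndex S) := rfl
    rw [h1, QuotientGroup.eq_one_iff]
    exact Subgroup.pow_relIndex_mem L hgS
  have hC : S.index = Nat.card (MulAction.orbit N' x) := by
    rw [hS, MulAction.index_stabilizer, Nat.card_coe_set_eq]
  have hD : S.relIndex L = Nat.card (MulAction.orbit N x) := by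
    have h1 : S.subgroupOf L = MulAction.stabilizer L x := by
      ext l
      rfl
    have h2 : MulAction.orbit L x = MulAction.orbit N x := by
      ext y
      constructor
      · rintro ⟨l, rfl⟩
        exact ⟨⟨l.1.1, l.2⟩, rfl⟩
      · rintro ⟨n, rfl⟩
        exact ⟨⟨⟨n.1, hle n.2⟩, n.2⟩, rfl⟩
    rw [Subgroup.relIndex, h1, MulAction.index_stabilizer, h2, Nat.card_coe_set_eq]
  intro hdvd
  rw [← hC] at hdvd
  rw [← hD] at hN
  have hv := hord.trans hB
  have h1 : q ^ ((Nat.card (N' ⧸ L)).factorization q + 1) ∣ S.relIndex L * L.index := by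
    rw [hA, pow_succ]
    exact Nat.mul_dvd_mul hv hdvd
  have hco : Nat.Coprime (q ^ ((Nat.card (N' ⧸ L)).factorization q + 1)) (S.relIndex L) :=
    Nat.Coprime.pow_left _ ((Nat.Prime.coprime_iff_not_dvd hq).2 hN)
  have h2 : q ^ ((Nat.card (N' ⧸ L)).factorization q + 1) ∣ Nat.card (N' ⧸ L) :=
    hco.dvd_of_dvd_mul_left h1
  have h3 := (hq.pow_dvd_iff_le_factorization (Nat.card_pos (α := N' ⧸ L)).ne').1 h2
  omega

/-- Orbits of a normal subgroup of a transitive group have the same length. -/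
theorem C1_orb {G X : Type} [Group G] [MulAction G X] (N : Subgroup G) [N.Normal]
    (htr : ∀ x y : X, ∃ g : G, g • x = y) (x y : X) :
    Nat.card (MulAction.orbit N x) = Nat.card (MulAction.orbit N y) := by
  obtain ⟨g, rfl⟩ := htr x y
  have h1 : MulAction.orbit N (g • x) = (fun z => g • z) '' MulAction.orbit N x := by
    ext z
    constructor
    · rintro ⟨n, rfl⟩
      refine ⟨(g⁻¹ * n.1 * g) • x, ⟨⟨g⁻¹ * n.1 * g, ?_⟩, rfl⟩, ?_⟩
      · have h2 := Subgroup.Normal.conj_mem (H := N) inferInstance n.1 n.2 g⁻¹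
        rwa [inv_inv] at h2
      · show g • (g⁻¹ * n.1 * g) • x = n.1 • g • x
        rw [← mul_smul, ← mul_smul]
        congr 1
        group
    · rintro ⟨_, ⟨n, rfl⟩, rfl⟩
      refine ⟨⟨g * n.1 * g⁻¹, Subgroup.Normal.conj_mem (H := N) inferInstance n.1 n.2 g⟩, ?_⟩
      show (g * n.1 * g⁻¹) • g • x = g • n.1 • x
      rw [← mul_smul, ← mul_smul]
      congr 1
      group
  rw [h1, Nat.card_coe_set_eq, Nat.card_coe_set_eq, Set.ncard_image_of_injective]
  exact MulAction.injective g

omit [Finite P] [Finite Bl] in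
/-- All prime divisors of the number of points equal `p`. -/
theorem Par.pow_of_dvd (h : Par I par k lam μ m r) (p a : ℕ) (hp : p.Prime) (ha : 1 ≤ a)
    (hm : m = p ^ a) (H : ∀ q : ℕ, q.Prime → q ≠ p → ¬ q ∣ Nat.card P) :
    ∃ n : ℕ, μ = m ^ n := by
  have hμ0 : μ ≠ 0 := h.aff.mu_pos.ne'
  have hμ : μ = p ^ μ.primeFactorsList.length := by
    refine Nat.eq_prime_pow_of_unique_prime_dvd hμ0 fun {q} hq hqd => ?_
    by_contra hne
    have h1 : q ∣ Nat.card P := by
      rw [h.hv, mul_assoc]
      exact hqd.mul_right _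
    exact H q hq hne h1
  obtain ⟨l0, -, hl⟩ := h.exists_lam0
  have hd : (p ^ a - 1) ∣ (p ^ μ.primeFactorsList.length - 1) := by
    rw [← hμ, ← hm]
    exact ⟨l0, by omega⟩
  obtain ⟨u, hu⟩ := arith_one p a _ hp ha hd
  exact ⟨u, by rw [hμ, hu, pow_mul, hm]⟩

/-- A group element of prime power order `q ^ j` with `q ∤ m` fixes a point. -/
theorem Par.exists_fixed (h : Par I par k lam μ m r) {G : Type} [Group G]
    [MulAction G P] [MulAction G Bl] (ha : ∀ (g : G) (p : P) (c : Bl), I (g • p) (g • c) ↔ I p c)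
    (g : G) (q j : ℕ) (hq : q.Prime) (hg : g ^ q ^ j = 1) (hqm : ¬ q ∣ m) :
    ∃ x : P, g • x = x := by
  by_contra hcon
  push Not at hcon
  refine hqm (h.prime_dvd_pow (MulAction.toPerm g) (MulAction.toPerm g) (fun x c => ha g x c) q j
    hq ?_ hcon)
  have h1 : (MulAction.toPermHom G Bl g) ^ q ^ j = 1 := by
    rw [← map_pow, hg, map_one]
  exact h1

theorem Par.series (h : Par I par k lam μ m r) (G : Type) [Group G] [Finite G]
    [MulAction G P] [MulAction G Bl] (ha : ∀ (g : G) (p : P) (c : Bl), I (g • p) (g • c) ↔ I p c)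
    (htr : ∀ x y : P, ∃ g : G, g • x = y) (p a : ℕ) (hp : p.Prime) (ha1 : 1 ≤ a)
    (hpm : m = p ^ a) (hser : HasCyclicSeries p G) : ∃ n : ℕ, μ = m ^ n := by
  obtain ⟨s, N, hnor, h0, hs, hstep⟩ := hser
  refine h.pow_of_dvd p a hp ha1 hpm fun q hq hqp => ?_
  have hqm : ¬ q ∣ m := by
    rw [hpm]
    intro h1
    exact hqp ((Nat.prime_dvd_prime_iff_eq hq hp).1 (hq.dvd_of_dvd_pow h1))
  obtain ⟨x₀⟩ : Nonempty P := by
    refine (Nat.card_pos_iff.1 ?_).1
    have h1 := h.aff.mu_pos
    have h2 := h.m2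
    rw [h.hv]
    positivity
  have key : ∀ i, i ≤ s → ¬ q ∣ Nat.card (MulAction.orbit (N i) x₀) := by
    intro i
    induction i with
    | zero =>
      intro _
      have h1 : MulAction.orbit (N 0) x₀ = {x₀} := by
        ext y
        constructor
        · rintro ⟨n, rfl⟩
          have h2 : n.1 = 1 := Subgroup.mem_bot.1 ((SetLike.ext_iff.1 h0 n.1).1 n.2)
          show n.1 • x₀ = x₀
          rw [h2, one_smul]
        · rintro rfl
          exact MulAction.mem_orbit_self _
      rw [h1, Nat.card_coe_set_eq, Set.ncard_singleton]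
      exact hq.one_lt.ne' ∘ Nat.dvd_one.1
    | succ i ih =>
      intro hi
      obtain ⟨hle, hcyc⟩ := hstep i (by omega)
      obtain ⟨g, j, hgj, hord⟩ := C1_lift ((N i).subgroupOf (N (i + 1))) q hq (hcyc q hq hqp)
      obtain ⟨x, hx⟩ := h.exists_fixed ha g.1 q j hq (by
        have h1 := congrArg Subtype.val hgj
        exact h1) hqm
      rw [C1_orb (N (i + 1)) htr x₀ x]
      refine C1_step (N i) (N (i + 1)) hle x q hq ?_ g hx hord
      rw [C1_orb (N i) htr x x₀]
      exact ih (by omega)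
  have hfin := key s le_rfl
  have h1 : MulAction.orbit (N s) x₀ = Set.univ := by
    ext y
    refine ⟨fun _ => Set.mem_univ _, fun _ => ?_⟩
    obtain ⟨g, hg⟩ := htr x₀ y
    exact ⟨⟨g, by rw [hs]; exact Subgroup.mem_top g⟩, hg⟩
  rwa [h1, Nat.card_coe_set_eq, Set.ncard_univ] at hfin

end Pool.Agent.AF
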