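import Mathlib

/-!
# Affine designs: basic definitions (MP_c0e0de_co)

`IsAffine I par k lam μ` is literally the list of hypotheses of the frozen statement `S11213`;
`Embeddable I` is literally its conclusion.
-/

namespace Pool.Agent.AF

/-- An affine design: points `P`, blocks `Bl`, incidence `I`, parallelism `par`. -/
structure IsAffine {P Bl : Type} (I : P → Bl → Prop) (par : Bl → Bl → Prop)
    (k lam μ : ℕ) : Prop where
  two_le : 2 ≤ k
  k_lt : k < Nat.card P
  lam_pos : 0 < lam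
  block : ∀ c : Bl, {p : P | I p c}.ncard = k
  pair : ∀ p q : P, p ≠ q → {c : Bl | I p c ∧ I q c}.ncard = lam
  equiv : Equivalence par
  euclid : ∀ (c : Bl) (p : P), ∃! d : Bl, par c d ∧ I p d
  mu_pos : 0 < μ
  meet : ∀ c d : Bl, ¬ par c d → {p : P | I p c ∧ I p d}.ncard = μ

/-- `I` is the external structure `D^B` of a projective (symmetric) design `D` at a block `B`. -/
def Embeddable {P Bl : Type} (I : P → Bl → Prop) : Prop :=
  ∃ (Q C : Type) (_ : Finite Q) (_ : Finite C) (J : Q → C → Prop) (k' lam' : ℕ) (B : C)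
    (φ : P ≃ {q : Q // ¬ J q B}) (ψ : Bl ≃ {c : C // c ≠ B}),
    Nat.card Q = Nat.card C ∧ 2 ≤ k' ∧ k' < Nat.card Q ∧ 0 < lam' ∧
    (∀ c : C, {q : Q | J q c}.ncard = k') ∧
    (∀ q r : Q, q ≠ r → {c : C | J q c ∧ J r c}.ncard = lam') ∧
    (∀ (p : P) (c : Bl), I p c ↔ J (φ p).1 (ψ c).1)

/-- A symmetric incidence structure: `r` points, `r` blocks, all blocks of size `s`, all points of
degree `s`, two distinct points in exactly `t` common blocks (`t = 0` is allowed). -/
structure IsSym (X Y : Type) (R : X → Y → Prop) (r s t : ℕ) : Prop where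
  cardX : Nat.card X = r
  cardY : Nat.card Y = r
  blk : ∀ y : Y, {x : X | R x y}.ncard = s
  deg : ∀ x : X, {y : Y | R x y}.ncard = s
  two : ∀ x x' : X, x ≠ x' → {y : Y | R x y ∧ R x' y}.ncard = t

/-- An affine design together with its standard parameters: `m` blocks in each parallel class,
`r` blocks through each point (and `r` parallel classes). -/
structure Par {P Bl : Type} (I : P → Bl → Prop) (par : Bl → Bl → Prop)
    (k lam μ m r : ℕ) : Prop where
  aff : IsAffine I par k lam μ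
  m2 : 2 ≤ m
  cls : ∀ c : Bl, {d : Bl | par c d}.ncard = m
  hk : k = μ * m
  hv : Nat.card P = μ * m * m
  hr : r = m * lam + 1
  hlam : lam * m + 1 = μ * m + lam
  deg : ∀ p : P, {c : Bl | I p c}.ncard = r
  hb : Nat.card Bl = m * r

/-- `lam = 1 + m lam0` and `μ = 1 + (m-1) lam0`, where `lam0 = (μ-1)/(m-1)`. -/
theorem Par.exists_lam0 {P Bl : Type} {I : P → Bl → Prop} {par : Bl → Bl → Prop}
    {k lam μ m r : ℕ} (h : Par I par k lam μ m r) :
    ∃ lam0 : ℕ, lam = m * lam0 + 1 ∧ μ = (m - 1) * lam0 + 1 := by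
  obtain ⟨n, hn⟩ : ∃ n, m = n + 2 := ⟨m - 2, by have := h.m2; omega⟩
  have h1 := h.hlam
  have hmu := h.aff.mu_pos
  subst hn
  -- lam (n+1) + 1 = μ (n+2)
  have h2 : lam * (n + 1) + 1 = μ * (n + 2) := by nlinarith
  have h3 : (n + 1) ∣ (μ - 1) := by
    have h4 : (n + 1) * lam + 1 = μ * (n + 1) + μ := by nlinarith
    have h5 : (n + 1) * lam = μ * (n + 1) + (μ - 1) := by omega
    have h6 : (n + 1) ∣ μ * (n + 1) + (μ - 1) := ⟨lam, h5.symm⟩
    exact (Nat.dvd_add_right (Dvd.intro_left μ rfl)).1 h6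
  obtain ⟨t, ht⟩ := h3
  refine ⟨t, ?_, ?_⟩
  · have h7 : μ = (n + 1) * t + 1 := by omega
    have h8 : (n + 1) * lam = (n + 1) * ((n + 2) * t + 1) := by
      rw [h7] at h2
      nlinarith
    exact Nat.eq_of_mul_eq_mul_left (Nat.succ_pos n) h8
  · have : n + 2 - 1 = n + 1 := by omega
    rw [this]; omega

end Pool.Agent.AF
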