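import Pool.Agent.Lib.MP_c0e0de_co.Mg.G003
import Pool.Agent.Lib.MP_c0e0de_co.AF.C1

namespace Pool.Agent.AF

variable {P Bl : Type} [Finite P] [Finite Bl] {I : P → Bl → Prop} {par : Bl → Bl → Prop}
  {k lam μ m r : ℕ}

/-- commutative and transitive on the points -/
theorem main_abelian {P Bl : Type} [Finite P] [Finite Bl] (I : P → Bl → Prop)
    (par : Bl → Bl → Prop) (k lam μ : ℕ) (hA : IsAffine I par k lam μ) (m : ℕ)
    (hm : ∀ c : Bl, {d : Bl | par c d}.ncard = m)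
    (G : Type) [CommGroup G] [MulAction G P] [MulAction G Bl]
    (ha : ∀ (g : G) (p : P) (c : Bl), I (g • p) (g • c) ↔ I p c)
    (htr : ∀ p q : P, ∃ g : G, g • p = q) :
    IsPrimePow m ∧ (∃ n : ℕ, 2 ≤ n ∧ Nat.card P = m ^ n) ∧ Embeddable I :=
  (main2 I par k lam μ hA m hm).1 G ha htr

/-- commutative, fixes a point, transitive on the other points -/
theorem main_singer {P Bl : Type} [Finite P] [Finite Bl] (I : P → Bl → Prop)
    (par : Bl → Bl → Prop) (k lam μ : ℕ) (hA : IsAffine I par k lam μ)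
    (G : Type) [CommGroup G] [MulAction G P] [MulAction G Bl]
    (ha : ∀ (g : G) (p : P) (c : Bl), I (g • p) (g • c) ↔ I p c)
    (x : P) (hx : ∀ g : G, g • x = x) (htr : ∀ p q : P, p ≠ x → q ≠ x → ∃ g : G, g • p = q) :
    Embeddable I := by
  obtain ⟨m, r, h⟩ := hA.exists_par
  exact (main2 I par k lam μ hA m h.cls).2.1 G ha x hx htr

/-- transitive nilpotent, transitive with a series with cyclic Sylow subgroups, semiregular with few
orbits -/
theorem main_orbits {P Bl : Type} [Finite P] [Finite Bl] (I : P → Bl → Prop)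
    (par : Bl → Bl → Prop) (k lam μ : ℕ) (hA : IsAffine I par k lam μ) (m : ℕ)
    (hm : ∀ c : Bl, {d : Bl | par c d}.ncard = m)
    (G : Type) [Group G] [Finite G] [MulAction G P] [MulAction G Bl]
    (ha : ∀ (g : G) (p : P) (c : Bl), I (g • p) (g • c) ↔ I p c)
    (p a : ℕ) (hp : p.Prime) (hpm : m = p ^ a) (hm3 : 3 ≤ m)
    (hG : ((∀ x y : P, ∃ g : G, g • x = y) ∧ (Group.IsNilpotent G ∨ HasCyclicSeries p G)) ∨
      ((∀ (g : G) (x : P), g • x = x → g = 1) ∧
        Nat.card (MulAction.orbitRel.Quotient G P) + 2 ≤ m + p)) :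
    (∃ n : ℕ, 2 ≤ n ∧ Nat.card P = m ^ n) ∧ Embeddable I := by
  obtain ⟨r, h⟩ := Par.of_class hA hm
  have ha1 : 1 ≤ a := by
    rcases Nat.eq_zero_or_pos a with h0 | h0
    · subst h0; simp at hpm; omega
    · exact h0
  have hpp : IsPrimePow m := by
    rw [hpm]
    exact hp.isPrimePow.pow (by omega)
  have key : ∃ n : ℕ, μ = m ^ n := by
    rcases hG with ⟨htr, hn | hs⟩ | ⟨hfree, hor⟩
    · exact h.nilpotent G ha htr hpp
    · exact h.series G ha htr p a hp ha1 hpm hs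
    · exact h.semireg_gen G ha hfree p a hp ha1 hpm hm3 hor
  obtain ⟨n, hn⟩ := key
  exact ⟨⟨n + 2, by omega, h.card_points_pow n hn⟩, h.embeddable_of_pow hpp n hn⟩

/-- many homotheties -/
theorem main_hom {P Bl : Type} [Finite P] [Finite Bl] (I : P → Bl → Prop)
    (par : Bl → Bl → Prop) (k lam μ : ℕ) (hA : IsAffine I par k lam μ) (m : ℕ)
    (hm : ∀ c : Bl, {d : Bl | par c d}.ncard = m) (x : P) (N : ℕ)
    (hN : {σ : Equiv.Perm P | ∃ τ : Equiv.Perm Bl, (∀ p c, I (σ p) (τ c) ↔ I p c) ∧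
      ∀ c, I x c → τ c = c}.ncard = N)
    (hh : m - 1 < 2 * N ∨ ((m - 1).Prime ∧ 1 < N)) : Embeddable I := by
  obtain ⟨r, h⟩ := Par.of_class hA hm
  exact h.embeddable_of_full x (fun q hq => h.full_of_many x N hN hh q hq)

end Pool.Agent.AF
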